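import Mathlib
import Pool.Agent.J6H19.KB.Main

/-!
Local inequalities for `2`-blocks: the contribution matrices of the trivial subsection and of a
major subsection of order two.
-/

set_option autoImplicit false
set_option linter.style.haveILetI false
set_option linter.unusedSectionVars false

open scoped BigOperators Classical
open Pool.Agent.Helper884 Pool.Agent.H254R3.IN Pool.Agent.N20 Pool.Agent.J6H19.KB

noncomputable section

namespace Pool.Agent.J6H19.KT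

section quot

variable {H K : Type} [Group H] [Fintype H] [Group K] [Fintype K] {π : H →* K}
  (hπ : Function.Surjective π) {z : H} {p : ℕ} [hp : Fact p.Prime] (hz : orderOf z = p)
  (hc : ∀ h, z * h = h * z) (hker : π.ker = Subgroup.zpowers z)
  {O : ValuationSubring ℂ} (hpO : (p : ℂ) ∈ O.nonunits) {b : Set (H → ℂ)} (hb : IsBlock O b)

/-- composition with the quotient map, on functions on the `p`-regular elements -/
def cm (p : ℕ) [Fact p.Prime] (π : H →* K) : ({g : K // ¬ p ∣ orderOf g} → ℂ) →ₗ[ℂ]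
    ({g : H // ¬ p ∣ orderOf g} → ℂ) where
  toFun f g := f ⟨π g, orderOf_map_reg g.2⟩
  map_add' _ _ := rfl
  map_smul' _ _ := rfl

include hπ hz hc hker hpO hb in
/-- **The number of Brauer characters is bounded by the one of the quotient block.** -/
theorem lB_le_lB_dn : lB p b ≤ lB p (dn π b) := by
  have hdn := dn_block hπ hz hc hker hpO hb
  have hdi : ∀ θ ∈ dn π b, IsIrr θ := fun θ hθ => hθ.1
  unfold lB
  refine le_trans ?_ (Submodule.finrank_map_le (cm p π) _)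
  apply Submodule.finrank_mono
  rw [Submodule.span_le]
  rintro _ ⟨χ, hχ, rfl⟩
  have hχi := hb.irr χ hχ
  have hcl : IsCl χ := fun g y => hχi.conj g y
  have hpcl : IsCl (psh π (cut p χ)) := psh_cl hπ (cut_cl hcl)
  have h1 : (fun g : {g : H // ¬ p ∣ orderOf g} => χ g) =
      ∑ θ ∈ XB (dn π b), IC.B (psh π (cut p χ)) θ •
        cm p π (fun g : {g : K // ¬ p ∣ orderOf g} => θ g) := by
    funext g
    have h2 := congrFun (IC.expand (psh π (cut p χ)) hpcl) (π g)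
    have h3 : psh π (cut p χ) (π g) = χ g := by
      rw [psh_reg hz hc hker (fun h hh => by unfold cut; rw [if_pos hh]) g.2]
      unfold cut
      rw [if_neg g.2]
    rw [h3] at h2
    simp only [Finset.sum_apply, Pi.smul_apply, smul_eq_mul] at h2 ⊢
    rw [h2]
    unfold XB
    rw [← Finset.sum_filter_add_sum_filter_not (IC.Irr K) (· ∈ dn π b)]
    rw [Finset.sum_eq_zero (s := (IC.Irr K).filter (· ∉ dn π b)), add_zero]
    · rfl
    intro θ hθ
    obtain ⟨h4, h5⟩ := Finset.mem_filter.mp hθ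
    have hθi := mem_Irr.mp h4
    have h6 : (fun g => θ (π g)) ∉ b := fun h => h5 ⟨hθi, h⟩
    have h7 := blk_orth hpO hb hχ (infl_isIrr hπ hθi) h6
    have h8 : IC.B (psh π (cut p χ)) θ = (p : ℂ) * IC.B (cut p χ) (fun g => θ (π g)) := by
      unfold IC.B
      rw [sum_psh (π := π) (cut p χ) (fun y => θ y⁻¹), card_quot hπ hz hker]
      have hp0 : (p : ℂ) ≠ 0 := by exact_mod_cast hp.out.ne_zero
      have hK0 : (Nat.card K : ℂ) ≠ 0 := by exact_mod_cast Nat.card_pos.ne'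
      push_cast
      simp only [map_inv]
      field_simp
    rw [h8, h7, mul_zero, zero_mul]
  change (fun g : {g : H // ¬ p ∣ orderOf g} => χ g) ∈ _
  rw [h1]
  refine Submodule.sum_mem _ fun θ hθ => Submodule.smul_mem _ _ ?_
  refine Submodule.mem_map_of_mem (Submodule.subset_span ?_)
  exact ⟨θ, (mem_XB hdi).mp hθ, rfl⟩

end quot

/-- one step down, with the number of Brauer characters of the block of the quotient -/
theorem descend' {G : Type} [Group G] [Fintype G] {p : ℕ} [hp : Fact p.Prime]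
    {O : ValuationSubring ℂ} (hpO : (p : ℂ) ∈ O.nonunits) {D : Subgroup G} {B : Set (G → ℂ)}
    (hB : IsBlock O B) (hD : IsDefectGroup p O B D) {d : ℕ} (hd : Nat.card D = p ^ (d + 1)) :
    ∃ (u : G) (b : Set (CC u → ℂ)) (D' : Subgroup (CC u)), orderOf u = p ∧ IsBlock O b ∧
      IsDefectGroup p O b D' ∧ Nat.card D' = Nat.card D ∧ Induces O B (CC u) b ∧
      ∃ (K : Type) (_ : Group K) (_ : Fintype K) (B₁ : Set (K → ℂ)) (D₁ : Subgroup K),
        IsBlock O B₁ ∧ IsDefectGroup p O B₁ D₁ ∧ Nat.card D₁ = p ^ d ∧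
        lB p b ≤ lB p B₁ := by
  obtain ⟨u, huD, hu, huZ⟩ := exists_central hd
  have hu1 : orderOf u = p ^ 1 := by rw [pow_one]; exact hu
  obtain ⟨b, D', hb, hD', hcard, hind⟩ := exists_major hpO hB hD hu1 huD huZ
  refine ⟨u, b, D', hu, hb, hD', hcard, hind, ?_⟩
  have hz : orderOf (uc u) = p := by
    have h4 : orderOf (uc u) = orderOf u := Subgroup.orderOf_mk u _
    rw [h4, hu]
  haveI hnorm : (Subgroup.zpowers (uc u)).Normal := by
    constructor
    intro n hn g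
    obtain ⟨i, rfl⟩ := Subgroup.mem_zpowers_iff.mp hn
    have h1 : Commute (uc u) g := uc_comm u g
    rw [← (h1.zpow_left i).eq, mul_inv_cancel_right]
    exact Subgroup.mem_zpowers_iff.mpr ⟨i, rfl⟩
  haveI : Fintype (CC u ⧸ Subgroup.zpowers (uc u)) := Fintype.ofFinite _
  have hπ : Function.Surjective (QuotientGroup.mk' (Subgroup.zpowers (uc u))) :=
    QuotientGroup.mk'_surjective _
  have hker : (QuotientGroup.mk' (Subgroup.zpowers (uc u))).ker = Subgroup.zpowers (uc u) :=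
    QuotientGroup.ker_mk' _
  have hblk := dn_block hπ hz (uc_comm u) hker hpO hb
  obtain ⟨D₁, hD₁, hc₁⟩ := dn_defect hπ hz (uc_comm u) hker hpO hb hD'
  refine ⟨_, inferInstance, inferInstance, _, D₁, hblk, hD₁, ?_,
    lB_le_lB_dn hπ hz (uc_comm u) hker hpO hb⟩
  rw [hcard, hd, pow_succ, mul_comm] at hc₁
  exact (Nat.eq_of_mul_eq_mul_left hp.out.pos hc₁).symm

section two

/-- the elements of `ZMod (2 ^ (0 + 1))` -/
lemma zmod_two (i : ZMod (2 ^ (0 + 1))) : i = 0 ∨ i = 1 := by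
  revert i
  decide

lemma RR_two (i j : ZMod (2 ^ (0 + 1))) : RR 2 0 i j := by
  unfold RR
  have h : ((2 : ℕ) : ZMod (2 ^ (0 + 1))) = 0 := by decide
  rw [h, zero_mul]

lemma sum_two {A : Type*} [AddCommMonoid A] (F : ZMod (2 ^ (0 + 1)) → A) :
    ∑ i, F i = F 0 + F 1 := by
  exact Fin.sum_univ_two F

lemma ch_zero : ch 2 0 0 = 1 := AddChar.map_zero_eq_one _

lemma ch_one : ch 2 0 1 = -1 := by
  have h1 : ch 2 0 1 * ch 2 0 1 = 1 := by
    rw [← AddChar.map_add_eq_mul]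
    have h : (1 : ZMod (2 ^ (0 + 1))) + 1 = 0 := by decide
    rw [h]
    exact ch_zero
  rcases mul_self_eq_one_iff.mp h1 with h2 | h2
  · have h3 := (ch_eq_one (p := 2) (k := 0)).mp h2
    exact absurd h3 (by decide)
  · exact h2

variable {G : Type} [Group G] [Fintype G] {O : ValuationSubring ℂ}

/-- products of commuting elements -/
lemma dvd_orderOf_mul {u s : G} (hu : orderOf u = 2 ^ (0 + 1)) (hc : u * s = s * u)
    (hs : ¬ 2 ∣ orderOf s) : 2 ∣ orderOf (u * s) := by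
  have h1 : Commute u s := hc
  have h2 : Nat.Coprime (orderOf u) (orderOf s) := by
    rw [hu]
    exact Nat.Coprime.pow_left _ ((Nat.Prime.coprime_iff_not_dvd Nat.prime_two).mpr hs)
  rw [h1.orderOf_mul_eq_mul_orderOf_of_coprime h2, hu]
  exact Dvd.dvd.mul_right (by norm_num) _

/-- the trivial section and the section of an involution are orthogonal -/
lemma sec_zero {u : G} (hu : orderOf u = 2 ^ (0 + 1)) {χ : G → ℂ} (hχ : IsIrr χ)
    (θ : CC u → ℂ) :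
    ∑ ψ ∈ IC.Irr G, IC.B (cut 2 χ) ψ * JJ 2 u 1 θ ψ = 0 := by
  have hcl : IsCl χ := fun g y => hχ.conj g y
  have h1 : ∀ ψ : G → ℂ, IC.B (cut 2 χ) ψ * JJ 2 u 1 θ ψ =
      (Nat.card (CC u) : ℂ)⁻¹ * ∑ s : CC u, cut 2 θ s⁻¹ *
        (IC.B (cut 2 χ) ψ * ψ (u ^ 1 * s)) := by
    intro ψ
    unfold JJ
    rw [mul_left_comm, Finset.mul_sum]
    congr 1
    refine Finset.sum_congr rfl fun s _ => ?_
    ring
  rw [Finset.sum_congr rfl fun ψ _ => h1 ψ, ← Finset.mul_sum, Finset.sum_comm]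
  rw [Finset.sum_eq_zero, mul_zero]
  intro s _
  rw [← Finset.mul_sum]
  have h2 := congrFun (IC.expand (cut 2 χ) (cut_cl hcl)) (u ^ 1 * s)
  simp only [Finset.sum_apply, Pi.smul_apply, smul_eq_mul] at h2
  rw [← h2]
  by_cases hs : 2 ∣ orderOf s⁻¹
  · rw [cut, if_pos hs, zero_mul]
  · rw [orderOf_inv] at hs
    have h3 : 2 ∣ orderOf (u ^ 1 * (s : G)) := by
      rw [pow_one]
      apply dvd_orderOf_mul hu (mem_CC.mp s.2)
      rw [Subgroup.orderOf_coe]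
      exact hs
    have h4 : cut 2 χ (u ^ 1 * (s : G)) = 0 := by
      unfold cut
      rw [if_pos h3]
    rw [h4, mul_zero]

section frame

variable [CharP (RF O) 2] {u : G} {b : Set (CC u → ℂ)} {D' : Subgroup (CC u)} {d : ℕ}
  {jj : {θ // θ ∈ XB b} → ZMod (2 ^ (0 + 1))}
  {n : {χ // χ ∈ IC.Irr G} → {θ // θ ∈ XB b} → ℤ}
  {E : MD 2 d (lB 2 b) (2 * (2 - 1)) (RF O) {θ // θ ∈ XB b}
        ({χ // χ ∈ IC.Irr G} × ZMod (2 ^ (0 + 1)) × ZMod (2 ^ (0 + 1)))}
  (hf : ∀ χ i j η, E.f (χ, i, j) η = if RR 2 0 i j then xv jj (n χ) i η - xv jj (n χ) j η else 0)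

/-- the frame vector of a character -/
def fv (E : MD 2 d (lB 2 b) (2 * (2 - 1)) (RF O) {θ // θ ∈ XB b}
        ({χ // χ ∈ IC.Irr G} × ZMod (2 ^ (0 + 1)) × ZMod (2 ^ (0 + 1))))
    (χ : {χ // χ ∈ IC.Irr G}) : {θ // θ ∈ XB b} → ℤ := E.f (χ, 0, 1)

include hf in
lemma bf_fq (z : {θ // θ ∈ XB b} → ℤ) (χ : {χ // χ ∈ IC.Irr G}) (i j : ZMod (2 ^ (0 + 1))) :
    bf E.M (E.f (χ, i, j)) z = bf E.M z (xv jj (n χ) i) - bf E.M z (xv jj (n χ) j) := by
  haveI : Fact (Nat.Prime 2) := ⟨Nat.prime_two⟩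
  rw [bf_f hf, if_pos (RR_two i j)]

include hf in
lemma bf_sum (z : {θ // θ ∈ XB b} → ℤ) (χ : {χ // χ ∈ IC.Irr G}) :
    ∑ q : ZMod (2 ^ (0 + 1)) × ZMod (2 ^ (0 + 1)), bf E.M (E.f (χ, q.1, q.2)) z ^ 2 =
      2 * bf E.M (fv E χ) z ^ 2 := by
  rw [Fintype.sum_prod_type]
  simp only [sum_two]
  unfold fv
  rw [bf_fq hf z χ 0 0, bf_fq hf z χ 1 1, bf_fq hf z χ 0 1, bf_fq hf z χ 1 0]
  ring

include hf in
lemma exists_nonzero {z : {θ // θ ∈ XB b} → ℤ} {χ : {χ // χ ∈ IC.Irr G}}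
    (h : 2 * (2 - 1) ≤ (Finset.univ.filter (fun q : ZMod (2 ^ (0 + 1)) × ZMod (2 ^ (0 + 1)) =>
      bf E.M (E.f (χ, q.1, q.2)) z ≠ 0)).card) : bf E.M (fv E χ) z ≠ 0 := by
  intro h0
  have h1 := bf_sum hf z χ
  rw [h0] at h1
  have h2 : ∀ q : ZMod (2 ^ (0 + 1)) × ZMod (2 ^ (0 + 1)), bf E.M (E.f (χ, q.1, q.2)) z = 0 := by
    intro q
    have h3 := (Finset.sum_eq_zero_iff_of_nonneg (fun q _ => sq_nonneg _)).mp
      (h1.trans (by norm_num)) q (Finset.mem_univ _)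
    exact pow_eq_zero_iff (two_ne_zero) |>.mp h3
  rw [Finset.filter_false_of_mem (fun q _ => not_not.mpr (h2 q)), Finset.card_empty] at h
  omega

include hf in
lemma sf_fv_ne {χ : {χ // χ ∈ IC.Irr G}}
    (h : 2 * (2 - 1) ≤ (Finset.univ.filter (fun q : ZMod (2 ^ (0 + 1)) × ZMod (2 ^ (0 + 1)) =>
      E.sf (E.f (χ, q.1, q.2)) ≠ 0)).card) : E.sf (fv E χ) ≠ 0 := by
  haveI : Fact (Nat.Prime 2) := ⟨Nat.prime_two⟩
  intro h0
  unfold fv at h0
  rw [sf_f hf, if_pos (RR_two 0 1), sub_eq_zero] at h0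
  have h2 : ∀ q : ZMod (2 ^ (0 + 1)) × ZMod (2 ^ (0 + 1)), E.sf (E.f (χ, q.1, q.2)) = 0 := by
    rintro ⟨i, j⟩
    change E.sf (E.f (χ, i, j)) = 0
    rw [sf_f hf, if_pos (RR_two i j), sub_eq_zero]
    rcases zmod_two i with rfl | rfl <;> rcases zmod_two j with rfl | rfl <;> simp [h0]
  rw [Finset.filter_false_of_mem (fun q _ => not_not.mpr (h2 q)), Finset.card_empty] at h
  omega

end frame

variable (hpO : ((2 : ℕ) : ℂ) ∈ O.nonunits)
  {D : Subgroup G} {B : Set (G → ℂ)} (hB : IsBlock O B) (hD : IsDefectGroup 2 O B D)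
  {u : G} (hu : orderOf u = 2 ^ (0 + 1)) {b : Set (CC u → ℂ)} (hb : IsBlock O b)
  {D' : Subgroup (CC u)} (hD' : IsDefectGroup 2 O b D') (hcard : Nat.card D' = Nat.card D)
  (hbB : Induces O B (CC u) b)

include hpO hB hD hu hb hD' hcard hbB in
/-- **The local inequalities for `2`-blocks.** -/
theorem local_two {d : ℕ} (hd : Nat.card D = 2 ^ d) :
    ∃ m : ℕ, 0 < m ∧ 0 < (B0 O D B).card ∧ (B0 O D B).card * m ≤ 2 ^ d * lB 2 b ∧
      m ^ 2 + (B0 O D B).card + 4 * ((XB B).card - (B0 O D B).card) ≤ 2 ^ d * m + 1 ∧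
      2 ^ d * lB 2 B + (B0 O D B).card * m ≤ 2 ^ d * (XB B).card := by
  haveI : Fact (Nat.Prime 2) := ⟨Nat.prime_two⟩
  haveI := charP_RF hpO
  have hd' : Nat.card D' = 2 ^ d := hcard.trans hd
  obtain ⟨jj, n, E, hM, hU, hf, hK⟩ := exists_MD hpO hu hb hD' hd'
  have hq : (0 : ℤ) < 2 ^ d := by positivity
  have hBsub : B0 O D B ⊆ XB B := Finset.filter_subset _ _
  -- the Gram matrix of the frame vectors
  set c : {χ // χ ∈ IC.Irr G} → {χ // χ ∈ IC.Irr G} → ℤ := fun ψ χ => bf E.M (fv E ψ) (fv E χ)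
    with hc
  have hc0 : ∀ χ, 0 ≤ c χ χ := fun χ => E.bf_nn _
  -- the frame identity
  have hfr : ∀ χ, ∑ ψ, c ψ χ ^ 2 = 2 ^ d * c χ χ := by
    intro χ
    have h1 := E.frame_one (fv E χ)
    rw [Fintype.sum_prod_type] at h1
    rw [Finset.sum_congr rfl fun ψ _ => bf_sum hf (fv E χ) ψ, ← Finset.mul_sum] at h1
    have h2 : (2 : ℤ) * ∑ ψ, c ψ χ ^ 2 = 2 * (2 ^ d * c χ χ) := by
      rw [hc]
      simp only
      rw [h1]
      push_cast
      ring
    exact mul_left_cancel₀ two_ne_zero h2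
  -- the trace
  have htr : ∑ χ, c χ χ = 2 ^ d * (lB 2 b : ℤ) := by
    have h1 := E.N_tr
    rw [Fintype.sum_prod_type] at h1
    have h2 : ∀ χ : {χ // χ ∈ IC.Irr G}, ∑ q : ZMod (2 ^ (0 + 1)) × ZMod (2 ^ (0 + 1)),
        E.N (χ, q) (χ, q) = 2 * c χ χ := by
      intro χ
      rw [Fintype.sum_prod_type]
      simp only [sum_two]
      have h3 : ∀ i, E.N (χ, i, i) (χ, i, i) = 0 := by
        intro i
        unfold MD.N
        rw [bf_fq hf _ χ i i, sub_self]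
      have h4 : E.N (χ, 1, 0) (χ, 1, 0) = E.N (χ, 0, 1) (χ, 0, 1) := by
        have h5 : ∀ z, bf E.M (E.f (χ, 1, 0)) z = - bf E.M (E.f (χ, 0, 1)) z := by
          intro z
          rw [bf_fq hf z χ 1 0, bf_fq hf z χ 0 1]
          ring
        unfold MD.N
        rw [h5, E.bf_comm, h5, E.bf_comm, neg_neg]
      have h6 : c χ χ = E.N (χ, 0, 1) (χ, 0, 1) := rfl
      rw [h3, h3, h4, h6]
      ring
    rw [Finset.sum_congr rfl fun χ _ => h2 χ, ← Finset.mul_sum] at h1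
    have h3 : (2 : ℤ) * ∑ χ, c χ χ = 2 * (2 ^ d * (lB 2 b : ℤ)) := by
      rw [h1]
      push_cast
      ring
    exact mul_left_cancel₀ two_ne_zero h3
  -- the relation with the characters
  have hcJ : ∀ ψ χ : {χ // χ ∈ IC.Irr G}, (c ψ χ : ℂ) = ∑ θ : {θ // θ ∈ XB b},
      ((fv E χ) θ : ℂ) * ((Nat.card D' : ℂ) * JJ 2 u 1 θ ψ) := by
    intro ψ χ
    have h1 := hK 1 (fv E χ) ψ
    rw [sum_two, mul_zero, mul_one, ch_zero, ch_one] at h1
    have h2 : ((1 : ZMod (2 ^ (0 + 1))).val) = 1 := rfl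
    rw [h2] at h1
    rw [← h1]
    have h3 : c ψ χ = bf E.M (fv E χ) (xv jj (n ψ) 0) - bf E.M (fv E χ) (xv jj (n ψ) 1) :=
      bf_fq hf _ ψ 0 1
    rw [h3]
    push_cast
    ring
  -- nonvanishing
  obtain ⟨z₀, hz₀⟩ := E.ex
  have hz1 : (∑ θ, (z₀ θ : RF O) * red O (uu D' (θ : CC u → ℂ))) ≠ 0 := by
    have := left_ne_zero_of_mul hz₀
    simpa only [hU] using this
  have huf : ∀ χ : {χ // χ ∈ IC.Irr G}, (χ : G → ℂ) ∈ B0 O D B → E.uf (fv E χ) ≠ 0 := by
    intro χ hχ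
    obtain ⟨h1, h2⟩ := (mem_B0 hB.irr).mp hχ
    rw [E.uf_ne_iff]
    apply sf_fv_ne hf
    convert count_s hf hK hpO z₀ χ (height_red hpO hB hD hu hb hD' hbB h1 h2 z₀ hz1)
  have hne : ∀ χ ψ : {χ // χ ∈ IC.Irr G}, (χ : G → ℂ) ∈ B0 O D B → (ψ : G → ℂ) ∈ B →
      c ψ χ ≠ 0 := by
    intro χ ψ hχ hψ
    apply exists_nonzero hf
    have h1 := huf χ hχ
    unfold MD.uf at h1
    simp only [hU] at h1
    convert count_z hf hK (fv E χ) ψ (major_ne hpO hB hD hu hb hD' hcard hbB hψ (fv E χ) h1)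
  have hdvd : ∀ χ ψ : {χ // χ ∈ IC.Irr G}, (ψ : G → ℂ) ∈ B → red O (uu D (ψ : G → ℂ)) = 0 →
      (2 : ℤ) ∣ c ψ χ := by
    intro χ ψ hψ h0
    have h3 : c ψ χ = bf E.M (fv E χ) (xv jj (n ψ) 0) - bf E.M (fv E χ) (xv jj (n ψ) 1) :=
      bf_fq hf _ ψ 0 1
    rw [h3]
    exact_mod_cast pos_height_dvd hpO hB hD hu hb hD' hcard hψ h0 (fv E χ)
      (fun t => hK t (fv E χ) ψ) 0 1
  -- a character of height zero with the smallest contribution
  obtain ⟨χ₀, hχ₀, hχ₀ne⟩ := exists_uu_ne hpO hB hD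
  set S0 := Finset.univ.filter (fun χ : {χ // χ ∈ IC.Irr G} => (χ : G → ℂ) ∈ B0 O D B) with hS0
  have hS0ne : S0.Nonempty := by
    refine ⟨⟨χ₀, mem_Irr.mpr (hB.irr _ hχ₀)⟩, ?_⟩
    rw [hS0, Finset.mem_filter]
    exact ⟨Finset.mem_univ _, (mem_B0 hB.irr).mpr ⟨hχ₀, hχ₀ne⟩⟩
  have hS0card : S0.card = (B0 O D B).card := by
    convert card_sub_eq (S := B0 O D B) (fun χ hχ => hB.irr χ ((mem_B0 hB.irr).mp hχ).1) _
      (fun χ => Iff.rfl)
  set S1 := Finset.univ.filter (fun χ : {χ // χ ∈ IC.Irr G} => (χ : G → ℂ) ∈ XB B \ B0 O D B)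
    with hS1
  have hS1card : S1.card = (XB B).card - (B0 O D B).card := by
    rw [← Finset.card_sdiff_of_subset hBsub]
    convert card_sub_eq (S := XB B \ B0 O D B) (fun χ hχ => hB.irr χ ((mem_XB hB.irr).mp
      (Finset.mem_sdiff.mp hχ).1)) _ (fun χ => Iff.rfl)
  have hdis : Disjoint S0 S1 := by
    rw [Finset.disjoint_left]
    intro χ h2 h3
    exact (Finset.mem_sdiff.mp (Finset.mem_filter.mp h3).2).2 (Finset.mem_filter.mp h2).2
  obtain ⟨χ₁, hχ₁, hmin⟩ := S0.exists_min_image (fun χ => c χ χ) hS0ne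
  have hχ₁B0 : (χ₁ : G → ℂ) ∈ B0 O D B := (Finset.mem_filter.mp hχ₁).2
  set m := c χ₁ χ₁ with hm
  have hm0 : 0 ≤ m := hc0 χ₁
  obtain ⟨m', hm'⟩ := Int.eq_ofNat_of_zero_le hm0
  have hk0 : 0 < (B0 O D B).card := by
    rw [← hS0card]
    exact hS0ne.card_pos
  have hm1 : 0 < m' := by
    rcases Nat.eq_zero_or_pos m' with h | h
    · exfalso
      rw [h] at hm'
      exact hne χ₁ χ₁ hχ₁B0 ((mem_B0 hB.irr).mp hχ₁B0).1 hm'
    · exact h
  refine ⟨m', hm1, hk0, ?_, ?_, ?_⟩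
  · have h1 : ((B0 O D B).card : ℤ) * m ≤ 2 ^ d * (lB 2 b : ℤ) := by
      rw [← htr, ← hS0card]
      calc (S0.card : ℤ) * m = ∑ χ ∈ S0, m := by rw [Finset.sum_const, nsmul_eq_mul]
        _ ≤ ∑ χ ∈ S0, c χ χ := Finset.sum_le_sum fun χ hχ => hmin χ hχ
        _ ≤ ∑ χ, c χ χ := Finset.sum_le_sum_of_subset_of_nonneg (Finset.subset_univ _)
            fun χ _ _ => hc0 χ
    rw [hm'] at h1
    exact_mod_cast h1
  · have h1 : m ^ 2 + ((B0 O D B).card - 1 : ℤ) + 4 * (((XB B).card - (B0 O D B).card : ℕ) : ℤ) ≤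
        2 ^ d * m := by
      rw [← hfr χ₁, ← hS1card, ← hS0card]
      have h2 : ∑ ψ ∈ S0, c ψ χ₁ ^ 2 = c χ₁ χ₁ ^ 2 + ∑ ψ ∈ S0.erase χ₁, c ψ χ₁ ^ 2 :=
        (Finset.add_sum_erase S0 (fun ψ => c ψ χ₁ ^ 2) hχ₁).symm
      have h3 : ((S0.card : ℤ) - 1) ≤ ∑ ψ ∈ S0.erase χ₁, c ψ χ₁ ^ 2 := by
        have h4 : ((S0.erase χ₁).card : ℤ) = (S0.card : ℤ) - 1 := by
          rw [Finset.card_erase_of_mem hχ₁, Nat.cast_sub (Finset.card_pos.mpr hS0ne)]
          simp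
        rw [← h4]
        calc ((S0.erase χ₁).card : ℤ) = ∑ ψ ∈ S0.erase χ₁, 1 := by simp
          _ ≤ _ := Finset.sum_le_sum fun ψ hψ => by
            have h5 : (ψ : G → ℂ) ∈ B0 O D B :=
              (Finset.mem_filter.mp (Finset.mem_of_mem_erase hψ)).2
            have h6 := hne χ₁ ψ hχ₁B0 ((mem_B0 hB.irr).mp h5).1
            have h7 : 0 < c ψ χ₁ ^ 2 := by positivity
            linarith
      have h4 : 4 * (S1.card : ℤ) ≤ ∑ ψ ∈ S1, c ψ χ₁ ^ 2 := by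
        calc 4 * (S1.card : ℤ) = ∑ ψ ∈ S1, 4 := by
              rw [Finset.sum_const, nsmul_eq_mul]
              ring
          _ ≤ _ := Finset.sum_le_sum fun ψ hψ => by
            obtain ⟨h5, h6⟩ := Finset.mem_sdiff.mp (Finset.mem_filter.mp hψ).2
            have h7 := (mem_XB hB.irr).mp h5
            have h8 := hne χ₁ ψ hχ₁B0 h7
            have h9 : red O (uu D (ψ : G → ℂ)) = 0 := by
              by_contra h10
              exact h6 ((mem_B0 hB.irr).mpr ⟨h7, h10⟩)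
            obtain ⟨e, he⟩ := hdvd χ₁ ψ h7 h9
            rw [he] at h8 ⊢
            have h10 : e ≠ 0 := by
              rintro rfl
              exact h8 (mul_zero _)
            have h11 : 0 < e ^ 2 := by positivity
            nlinarith
      calc m ^ 2 + ((S0.card : ℤ) - 1) + 4 * (S1.card : ℤ)
          ≤ ∑ ψ ∈ S0, c ψ χ₁ ^ 2 + ∑ ψ ∈ S1, c ψ χ₁ ^ 2 := by
            rw [h2]
            linarith
        _ = ∑ ψ ∈ S0 ∪ S1, c ψ χ₁ ^ 2 := (Finset.sum_union hdis).symm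
        _ ≤ ∑ ψ, c ψ χ₁ ^ 2 := Finset.sum_le_sum_of_subset_of_nonneg (Finset.subset_univ _)
            fun ψ _ _ => sq_nonneg _
    rw [hm'] at h1
    have h2 : ((m' ^ 2 + (B0 O D B).card + 4 * ((XB B).card - (B0 O D B).card) : ℕ) : ℤ) ≤
        ((2 ^ d * m' + 1 : ℕ) : ℤ) := by
      push_cast
      linarith
    exact_mod_cast h2
  · -- the two projections
    have hle : ∀ χ : {χ // χ ∈ IC.Irr G}, (χ : G → ℂ) ∈ B →
        ∃ r : ℝ, (r : ℂ) = IC.B (cut 2 (χ : G → ℂ)) χ ∧ (2 : ℝ) ^ d * r + c χ χ ≤ 2 ^ d := by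
      intro χ hχ
      have hχi := hB.irr _ hχ
      choose nn hnn using fun ψ : {χ // χ ∈ IC.Irr G} =>
        B_cut_int Nat.prime_two hχi (mem_Irr.mp ψ.2)
      set a := (Nat.card G).factorization 2 with ha
      have h2a : ((2 : ℕ) : ℂ) ^ a ≠ 0 := pow_ne_zero _ (by norm_num)
      set r : {χ // χ ∈ IC.Irr G} → ℝ := fun ψ => (nn ψ : ℝ) / 2 ^ a with hr
      have hrc : ∀ ψ : {χ // χ ∈ IC.Irr G}, (r ψ : ℂ) = IC.B (cut 2 (χ : G → ℂ)) ψ := by
        intro ψ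
        rw [hr]
        simp only
        rw [Complex.ofReal_div, Complex.ofReal_intCast, ← hnn ψ]
        push_cast
        have : ((2 : ℕ) : ℂ) ^ a = (2 : ℂ) ^ a := by norm_num
        field_simp
      have hq0 : (0 : ℝ) < 2 ^ d := by positivity
      have e1 : ∑ ψ, r ψ ^ 2 = r χ := by
        have h1 := B_cut_idem hpO hB (χ := (χ : G → ℂ)) (ψ := (χ : G → ℂ)) hχ
        have h2 : ∑ ψ ∈ IC.Irr G, IC.B (cut 2 (χ : G → ℂ)) ψ * IC.B (cut 2 (χ : G → ℂ)) ψ =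
            IC.B (cut 2 (χ : G → ℂ)) χ := by
          rw [← h1]
          unfold XB
          rw [← Finset.sum_filter_add_sum_filter_not (IC.Irr G) (· ∈ B)]
          rw [Finset.sum_eq_zero (s := (IC.Irr G).filter (· ∉ B)), add_zero]
          · refine Finset.sum_congr rfl fun ψ _ => ?_
            rw [B_cut_comm ψ]
          · intro ψ hψ
            obtain ⟨h4, h5⟩ := Finset.mem_filter.mp hψ
            rw [blk_orth hpO hB hχ (mem_Irr.mp h4) h5, mul_zero]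
        rw [← Finset.sum_coe_sort (IC.Irr G)
          (fun ψ : G → ℂ => IC.B (cut 2 (χ : G → ℂ)) ψ * IC.B (cut 2 (χ : G → ℂ)) ψ)] at h2
        have h3 : ((∑ ψ, r ψ ^ 2 : ℝ) : ℂ) = (r χ : ℂ) := by
          rw [hrc χ, ← h2]
          push_cast
          refine Finset.sum_congr rfl fun ψ _ => ?_
          rw [hrc ψ]
          ring
        exact_mod_cast h3
      have e2 : ∑ ψ, r ψ * (c ψ χ : ℝ) = 0 := by
        have h3 : ((∑ ψ, r ψ * (c ψ χ : ℝ) : ℝ) : ℂ) = 0 := by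
          push_cast
          have h4 : ∀ ψ : {χ // χ ∈ IC.Irr G}, (r ψ : ℂ) * (c ψ χ : ℂ) =
              ∑ θ : {θ // θ ∈ XB b}, ((fv E χ) θ : ℂ) * (Nat.card D' : ℂ) *
                (IC.B (cut 2 (χ : G → ℂ)) ψ * JJ 2 u 1 θ ψ) := by
            intro ψ
            rw [hrc ψ, hcJ, Finset.mul_sum]
            refine Finset.sum_congr rfl fun θ _ => ?_
            ring
          rw [Finset.sum_congr rfl fun ψ _ => h4 ψ, Finset.sum_comm]
          apply Finset.sum_eq_zero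
          intro θ _
          rw [← Finset.mul_sum, Finset.sum_coe_sort (IC.Irr G)
            (fun ψ : G → ℂ => IC.B (cut 2 (χ : G → ℂ)) ψ * JJ 2 u 1 (θ : CC u → ℂ) ψ),
            sec_zero hu hχi, mul_zero]
        exact_mod_cast h3
      have e3 : ∑ ψ, (c ψ χ : ℝ) ^ 2 = 2 ^ d * (c χ χ : ℝ) := by
        have := hfr χ
        exact_mod_cast this
      refine ⟨r χ, hrc χ, ?_⟩
      set x := r χ + (c χ χ : ℝ) / 2 ^ d with hx
      have e4 : ∑ ψ, (r ψ + (c ψ χ : ℝ) / 2 ^ d) ^ 2 = x := by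
        have h5 : ∀ ψ, (r ψ + (c ψ χ : ℝ) / 2 ^ d) ^ 2 = r ψ ^ 2 + (2 / 2 ^ d) *
            (r ψ * (c ψ χ : ℝ)) + (1 / (2 ^ d) ^ 2) * (c ψ χ : ℝ) ^ 2 := by
          intro ψ
          field_simp
          ring
        rw [Finset.sum_congr rfl fun ψ _ => h5 ψ, Finset.sum_add_distrib,
          Finset.sum_add_distrib, ← Finset.mul_sum, ← Finset.mul_sum, e1, e2, e3, hx]
        field_simp
        ring
      have e5 : x ^ 2 ≤ x := by
        calc x ^ 2 ≤ ∑ ψ, (r ψ + (c ψ χ : ℝ) / 2 ^ d) ^ 2 :=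
              Finset.single_le_sum (f := fun ψ => (r ψ + (c ψ χ : ℝ) / 2 ^ d) ^ 2)
                (fun ψ _ => sq_nonneg _) (Finset.mem_univ χ)
          _ = x := e4
      have e6 : x ≤ 1 := by nlinarith
      have e7 : (2 : ℝ) ^ d * x = 2 ^ d * r χ + c χ χ := by
        rw [hx]
        field_simp
      rw [← e7]
      nlinarith
    -- summation
    choose! r hr1 hr2 using hle
    have hl : ∑ χ ∈ Finset.univ.filter (fun χ : {χ // χ ∈ IC.Irr G} => (χ : G → ℂ) ∈ B), r χ =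
        (lB 2 B : ℝ) := by
      have h1 := trace_eq hpO hB
      have h2 : ∑ χ ∈ XB B, IC.B (cut 2 χ) χ =
          ∑ χ ∈ Finset.univ.filter (fun χ : {χ // χ ∈ IC.Irr G} => (χ : G → ℂ) ∈ B),
            IC.B (cut 2 (χ : G → ℂ)) χ := by
        rw [Finset.sum_filter, Finset.sum_filter]
        exact (Finset.sum_coe_sort (IC.Irr G)
          (fun χ : G → ℂ => if χ ∈ B then IC.B (cut 2 χ) χ else 0)).symm
      have h3 : ((∑ χ ∈ Finset.univ.filter
          (fun χ : {χ // χ ∈ IC.Irr G} => (χ : G → ℂ) ∈ B), r χ : ℝ) : ℂ) = (lB 2 B : ℂ) := by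
        rw [← h1, h2]
        push_cast
        refine Finset.sum_congr rfl fun χ hχ => ?_
        exact hr1 χ (Finset.mem_filter.mp hχ).2
      exact_mod_cast h3
    have hcardB : (Finset.univ.filter (fun χ : {χ // χ ∈ IC.Irr G} => (χ : G → ℂ) ∈ B)).card =
        (XB B).card := by
      convert card_sub_eq (S := XB B) (fun χ hχ => hB.irr χ ((mem_XB hB.irr).mp hχ)) _
        (fun χ => (mem_XB hB.irr).symm)
    have hsub : S0 ⊆ Finset.univ.filter (fun χ : {χ // χ ∈ IC.Irr G} => (χ : G → ℂ) ∈ B) := by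
      intro χ hχ
      rw [Finset.mem_filter]
      exact ⟨Finset.mem_univ _, ((mem_B0 hB.irr).mp (Finset.mem_filter.mp hχ).2).1⟩
    have h1 : (2 : ℝ) ^ d * lB 2 B + (B0 O D B).card * (m : ℝ) ≤ 2 ^ d * (XB B).card := by
      have h2 : ((B0 O D B).card : ℝ) * (m : ℝ) ≤
          ∑ χ ∈ Finset.univ.filter (fun χ : {χ // χ ∈ IC.Irr G} => (χ : G → ℂ) ∈ B),
            (c χ χ : ℝ) := by
        rw [← hS0card]
        calc (S0.card : ℝ) * (m : ℝ) = ∑ χ ∈ S0, (m : ℝ) := by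
              rw [Finset.sum_const, nsmul_eq_mul]
          _ ≤ ∑ χ ∈ S0, (c χ χ : ℝ) := Finset.sum_le_sum fun χ hχ => by
              exact_mod_cast hmin χ hχ
          _ ≤ _ := Finset.sum_le_sum_of_subset_of_nonneg hsub fun χ _ _ => by
              exact_mod_cast hc0 χ
      calc (2 : ℝ) ^ d * lB 2 B + (B0 O D B).card * (m : ℝ)
          ≤ ∑ χ ∈ Finset.univ.filter (fun χ : {χ // χ ∈ IC.Irr G} => (χ : G → ℂ) ∈ B),
            ((2 : ℝ) ^ d * r χ + c χ χ) := by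
            rw [Finset.sum_add_distrib, ← Finset.mul_sum, hl]
            linarith
        _ ≤ ∑ χ ∈ Finset.univ.filter (fun χ : {χ // χ ∈ IC.Irr G} => (χ : G → ℂ) ∈ B),
            (2 : ℝ) ^ d := Finset.sum_le_sum fun χ hχ => hr2 χ (Finset.mem_filter.mp hχ).2
        _ = _ := by
            rw [Finset.sum_const, nsmul_eq_mul, hcardB]
            ring
    rw [hm'] at h1
    have h2 : ((2 ^ d * lB 2 B + (B0 O D B).card * m' : ℕ) : ℝ) ≤
        ((2 ^ d * (XB B).card : ℕ) : ℝ) := by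
      push_cast
      push_cast at h1
      exact h1
    exact_mod_cast h2

end two

end Pool.Agent.J6H19.KT
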