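import Mathlib
import Pool.Agent.J6H19.KT.Two

/-!
A general upper bound for the number of irreducible characters in a `2`-block.
-/

set_option autoImplicit false
set_option linter.style.haveILetI false
set_option linter.unusedSectionVars false

open scoped BigOperators Classical
open Pool.Agent.Helper884 Pool.Agent.H254R3.IN Pool.Agent.N20 Pool.Agent.J6H19.KB

noncomputable section

namespace Pool.Agent.J6H19.KT

section num

lemma cubic {x Y : ℝ} (hY0 : 1 / 5 ≤ Y) (hY1 : Y ≤ 1 / 3) (hx : Y ≤ x) :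
    3 * (Y ^ 2 * (1 - Y)) + x ^ 2 * (1 - x) ≤ 4 * (Y * (1 - Y)) * x := by
  have h1 : 0 ≤ x ^ 2 - (1 - Y) * x + 3 * (Y * (1 - Y)) := by
    nlinarith [sq_nonneg (x - (1 - Y) / 2), mul_nonneg (by linarith : (0 : ℝ) ≤ 1 - Y)
      (by linarith : (0 : ℝ) ≤ 13 * Y - 1)]
  have h2 : 0 ≤ (x - Y) * (x ^ 2 - (1 - Y) * x + 3 * (Y * (1 - Y))) :=
    mul_nonneg (by linarith) h1
  nlinarith [h2]

lemma mono_cubic {x Y : ℝ} (hx0 : 0 ≤ x) (hx : x ≤ Y) (hY : Y ≤ 1 / 3) :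
    x * (1 - x) ^ 2 ≤ Y * (1 - Y) ^ 2 := by
  have h1 : 0 ≤ (1 - x - Y) ^ 2 - x * Y := by
    have h2 : 1 / 3 ≤ 1 - x - Y := by linarith
    have h3 : x * Y ≤ 1 / 3 * (1 / 3) := mul_le_mul (by linarith) hY (by linarith) (by norm_num)
    nlinarith
  have h2 : 0 ≤ (Y - x) * ((1 - x - Y) ^ 2 - x * Y) := mul_nonneg (by linarith) h1
  nlinarith [h2]

/-- the numerical step -/
theorem num_two {q Y l L k k0 m : ℝ} (hq : 0 < q) (hY0 : 1 / 5 ≤ Y) (hY1 : Y ≤ 1 / 3)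
    (hl : l ≤ q ^ 2 * (Y ^ 2 * (1 - Y))) (hk1 : 1 ≤ k0) (hk0 : k0 ≤ k) (hm : 0 < m)
    (hA : k0 * m ≤ q * l) (hB : m ^ 2 + k0 + 4 * (k - k0) ≤ q * m + 1)
    (hC : q * L + k0 * m ≤ q * k) :
    k ≤ 1 + q ^ 2 * (Y * (1 - Y)) ∧ L ≤ 1 + q ^ 2 * (Y * (1 - Y) ^ 2) := by
  set x := m / q with hx
  have hmx : m = q * x := by rw [hx]; field_simp
  have hx0 : 0 < x := div_pos hm hq
  have hq2 : 0 < q ^ 2 := by positivity
  -- the sum with weights
  have hS : k0 + 4 * (k - k0) ≤ 1 + q ^ 2 * (x * (1 - x)) := by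
    have h1 : q * m - m ^ 2 = q ^ 2 * (x * (1 - x)) := by rw [hmx]; ring
    linarith
  have hx1 : x ≤ 1 := by
    by_contra hcon
    push Not at hcon
    have h1 : q ^ 2 * (x * (1 - x)) < 0 := by
      apply mul_neg_of_pos_of_neg hq2
      exact mul_neg_of_pos_of_neg hx0 (by linarith)
    linarith
  have hC' : L ≤ k - k0 * x := by
    have h1 : q * L ≤ q * (k - k0 * x) := by
      rw [hmx] at hC
      nlinarith
    exact le_of_mul_le_mul_left h1 hq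
  have hA' : k0 * x ≤ l := by
    have h1 : q * (k0 * x) ≤ q * l := by
      rw [hmx] at hA
      nlinarith
    exact le_of_mul_le_mul_left h1 hq
  rcases le_or_gt x Y with h | h
  · have h1 : x * (1 - x) ≤ Y * (1 - Y) := by nlinarith
    have h2 := mul_le_mul_of_nonneg_left h1 hq2.le
    refine ⟨by linarith, ?_⟩
    have h3 := mul_le_mul_of_nonneg_left (mono_cubic hx0.le h hY1) hq2.le
    have h4 : L ≤ (k0 + 4 * (k - k0)) * (1 - x) := by
      have h5 : k - k0 * x ≤ (k0 + 4 * (k - k0)) * (1 - x) := by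
        have h6 : (k0 + 4 * (k - k0)) * (1 - x) - (k - k0 * x) =
            (k - k0) * (3 - 4 * x) := by ring
        have h7 : 0 ≤ (k - k0) * (3 - 4 * x) := mul_nonneg (by linarith) (by linarith)
        linarith
      exact hC'.trans h5
    have h5 : (k0 + 4 * (k - k0)) * (1 - x) ≤ (1 + q ^ 2 * (x * (1 - x))) * (1 - x) :=
      mul_le_mul_of_nonneg_right hS (by linarith)
    have h6 : (1 + q ^ 2 * (x * (1 - x))) * (1 - x) = (1 - x) + q ^ 2 * (x * (1 - x) ^ 2) := by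
      ring
    linarith
  · have hc := cubic hY0 hY1 h.le
    have h1 : 3 * (k0 * x) + q ^ 2 * (x ^ 2 * (1 - x)) ≤ q ^ 2 * (4 * (Y * (1 - Y)) * x) := by
      calc 3 * (k0 * x) + q ^ 2 * (x ^ 2 * (1 - x))
          ≤ 3 * (q ^ 2 * (Y ^ 2 * (1 - Y))) + q ^ 2 * (x ^ 2 * (1 - x)) := by linarith
        _ = q ^ 2 * (3 * (Y ^ 2 * (1 - Y)) + x ^ 2 * (1 - x)) := by ring
        _ ≤ _ := mul_le_mul_of_nonneg_left hc hq2.le
    have h2 : 3 * k0 + q ^ 2 * (x * (1 - x)) ≤ q ^ 2 * (4 * (Y * (1 - Y))) := by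
      apply le_of_mul_le_mul_right _ hx0
      calc (3 * k0 + q ^ 2 * (x * (1 - x))) * x = 3 * (k0 * x) + q ^ 2 * (x ^ 2 * (1 - x)) := by
            ring
        _ ≤ _ := h1
        _ = _ := by ring
    have h3 : k ≤ 1 / 4 + q ^ 2 * (Y * (1 - Y)) := by linarith
    refine ⟨by linarith, ?_⟩
    have h4 : L ≤ k0 * (3 / 4 - x) + (1 + q ^ 2 * (x * (1 - x))) / 4 := by
      have h5 : k ≤ (3 * k0 + (1 + q ^ 2 * (x * (1 - x)))) / 4 := by linarith
      nlinarith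
    rcases le_or_gt x (3 / 4) with h34 | h34
    · have h5 : k0 * x * (3 / 4 - x) ≤ q ^ 2 * (Y ^ 2 * (1 - Y)) * (3 / 4 - x) :=
        mul_le_mul_of_nonneg_right (hA'.trans hl) (by linarith)
      have h6 : q ^ 2 * (3 * (Y ^ 2 * (1 - Y)) + x ^ 2 * (1 - x)) ≤
          q ^ 2 * (4 * (Y * (1 - Y)) * x) := mul_le_mul_of_nonneg_left hc hq2.le
      have h7 : (k0 * (3 / 4 - x) + (1 + q ^ 2 * (x * (1 - x))) / 4) * x ≤
          (1 + q ^ 2 * (Y * (1 - Y) ^ 2)) * x := by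
        calc (k0 * (3 / 4 - x) + (1 + q ^ 2 * (x * (1 - x))) / 4) * x
            = k0 * x * (3 / 4 - x) + x / 4 + q ^ 2 * (x ^ 2 * (1 - x)) / 4 := by ring
          _ ≤ q ^ 2 * (Y ^ 2 * (1 - Y)) * (3 / 4 - x) + x / 4 +
              q ^ 2 * (x ^ 2 * (1 - x)) / 4 := by linarith
          _ = q ^ 2 * (3 * (Y ^ 2 * (1 - Y)) + x ^ 2 * (1 - x)) / 4 -
              q ^ 2 * (Y ^ 2 * (1 - Y)) * x + x / 4 := by ring
          _ ≤ q ^ 2 * (4 * (Y * (1 - Y)) * x) / 4 - q ^ 2 * (Y ^ 2 * (1 - Y)) * x + x / 4 := by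
              linarith
          _ = (1 / 4 + q ^ 2 * (Y * (1 - Y) ^ 2)) * x := by ring
          _ ≤ _ := mul_le_mul_of_nonneg_right (by linarith) hx0.le
      exact h4.trans (le_of_mul_le_mul_right h7 hx0)
    · have h5 : k0 * (3 / 4 - x) ≤ 0 := mul_nonpos_of_nonneg_of_nonpos (by linarith) (by linarith)
      have h6 : x * (1 - x) ≤ 3 / 16 := by nlinarith
      have h7 := mono_cubic (x := 1 / 5) (by norm_num) hY0 hY1
      have h8 : x * (1 - x) / 4 ≤ Y * (1 - Y) ^ 2 := by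
        have : (1 : ℝ) / 5 * (1 - 1 / 5) ^ 2 = 16 / 125 := by norm_num
        linarith
      have h9 := mul_le_mul_of_nonneg_left h8 hq2.le
      linarith

/-- the error term -/
def er (d : ℕ) : ℝ := 48363 / 2560 * (2 / 7) ^ d - 25 / 4 ^ d

lemma er_three : er 3 = 1 / 20 := by
  unfold er
  norm_num

lemma er_succ (d : ℕ) : er (d + 1) = 2 / 7 * er d + 25 / 28 / 4 ^ d := by
  unfold er
  rw [pow_succ, pow_succ]
  have h : (4 : ℝ) ^ d ≠ 0 := by positivity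
  field_simp
  ring

lemma er_bounds (d : ℕ) : 0 ≤ er (d + 3) ∧ er (d + 3) ≤ 1 / 20 := by
  induction d with
  | zero => rw [er_three]; norm_num
  | succ d ih =>
    have h1 := er_succ (d + 3)
    have h2 : d + 1 + 3 = d + 3 + 1 := by ring
    rw [h2, h1]
    have h3 : (0 : ℝ) < 4 ^ (d + 3) := by positivity
    have h4 : (64 : ℝ) ≤ 4 ^ (d + 3) := by
      calc (64 : ℝ) = 4 ^ 3 := by norm_num
        _ ≤ 4 ^ (d + 3) := pow_le_pow_right₀ (by norm_num) (by omega)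
    have h5 : 25 / 28 / (4 : ℝ) ^ (d + 3) ≤ 25 / 28 / 64 :=
      div_le_div_of_nonneg_left (by norm_num) (by norm_num) h4
    have h6 : 0 ≤ 25 / 28 / (4 : ℝ) ^ (d + 3) := by positivity
    constructor
    · nlinarith [ih.1]
    · nlinarith [ih.2]

/-- the recursion for the numbers of Brauer characters -/
lemma er_step (d : ℕ) :
    1 + 4 ^ (d + 3) * ((1 / 5 + er (d + 3)) * (1 - (1 / 5 + er (d + 3))) ^ 2) ≤
      4 ^ (d + 4) * ((1 / 5 + er (d + 4)) ^ 2 * (1 - (1 / 5 + er (d + 4)))) := by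
  obtain ⟨h1, h2⟩ := er_bounds d
  obtain ⟨h3, h4⟩ := er_bounds (d + 1)
  have h5 : d + 1 + 3 = d + 3 + 1 := by ring
  rw [h5] at h3 h4
  have h6 := er_succ (d + 3)
  have h7 : d + 4 = d + 3 + 1 := by ring
  rw [h7]
  set e := er (d + 3)
  set e' := er (d + 3 + 1)
  set Q : ℝ := 4 ^ (d + 3) with hQ
  have hQ0 : 0 < Q := by positivity
  have h8 : (4 : ℝ) ^ (d + 3 + 1) = 4 * Q := by rw [pow_succ, mul_comm]
  rw [h8]
  have h9 : 25 = Q * (28 * e' - 8 * e) := by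
    rw [h6]
    field_simp
    ring
  have h10 : 0 ≤ Q * (e ^ 2 * (7 / 5 - e)) := by
    apply mul_nonneg hQ0.le
    exact mul_nonneg (sq_nonneg _) (by linarith)
  have h11 : 0 ≤ Q * (e' ^ 2 * (8 / 5 - 4 * e')) := by
    apply mul_nonneg hQ0.le
    exact mul_nonneg (sq_nonneg _) (by linarith)
  nlinarith [h9, h10, h11]

end num

/-- **The bound, with the number of Brauer characters.** -/
theorem bound_two {O : ValuationSubring ℂ} (hpO : ((2 : ℕ) : ℂ) ∈ O.nonunits) : ∀ d : ℕ,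
    ∀ (G : Type) [Group G] [Fintype G] (D : Subgroup G) (B : Set (G → ℂ)), IsBlock O B →
    IsDefectGroup 2 O B D → Nat.card D = 2 ^ (d + 3) →
    (Nat.card B : ℝ) ≤ 1 + 4 ^ (d + 3) * ((1 / 5 + er (d + 3)) * (1 - (1 / 5 + er (d + 3)))) ∧
    (lB 2 B : ℝ) ≤ 1 + 4 ^ (d + 3) *
      ((1 / 5 + er (d + 3)) * (1 - (1 / 5 + er (d + 3))) ^ 2) := by
  haveI : Fact (Nat.Prime 2) := ⟨Nat.prime_two⟩
  -- the local step
  have step : ∀ (d : ℕ) (G : Type) [Group G] [Fintype G] (D : Subgroup G) (B : Set (G → ℂ)),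
      IsBlock O B → IsDefectGroup 2 O B D → Nat.card D = 2 ^ (d + 3) →
      ∀ (u : G) (b : Set (CC u → ℂ)) (D' : Subgroup (CC u)), orderOf u = 2 → IsBlock O b →
      IsDefectGroup 2 O b D' → Nat.card D' = Nat.card D → Induces O B (CC u) b →
      (lB 2 b : ℝ) ≤ 4 ^ (d + 3) * ((1 / 5 + er (d + 3)) ^ 2 * (1 - (1 / 5 + er (d + 3)))) →
      (Nat.card B : ℝ) ≤ 1 + 4 ^ (d + 3) * ((1 / 5 + er (d + 3)) * (1 - (1 / 5 + er (d + 3)))) ∧
      (lB 2 B : ℝ) ≤ 1 + 4 ^ (d + 3) *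
        ((1 / 5 + er (d + 3)) * (1 - (1 / 5 + er (d + 3))) ^ 2) := by
    intro d G _ _ D B hB hD hd u b D' hu hb hD' hcard hind hl
    obtain ⟨m, hm, hk0, hA, hB', hC⟩ := local_two hpO hB hD (by rw [hu]; norm_num) hb hD' hcard
      hind hd
    obtain ⟨h1, h2⟩ := er_bounds d
    have hsub : (B0 O D B).card ≤ (XB B).card := Finset.card_le_card (Finset.filter_subset _ _)
    rw [card_B_eq hB.irr]
    have h4 : (4 : ℝ) ^ (d + 3) = (2 ^ (d + 3)) ^ 2 := by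
      rw [← pow_mul, mul_comm, pow_mul]
      norm_num
    rw [h4] at hl ⊢
    refine num_two (q := 2 ^ (d + 3)) (l := (lB 2 b : ℝ)) (k0 := ((B0 O D B).card : ℝ))
      (m := (m : ℝ)) (by positivity) (by linarith) (by linarith) hl (by exact_mod_cast hk0)
      (by exact_mod_cast hsub) (by exact_mod_cast hm) (by exact_mod_cast hA) ?_
      (by exact_mod_cast hC)
    have h5 : ((m ^ 2 + (B0 O D B).card + 4 * ((XB B).card - (B0 O D B).card) : ℕ) : ℝ) ≤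
        ((2 ^ (d + 3) * m + 1 : ℕ) : ℝ) := by exact_mod_cast hB'
    push_cast [Nat.cast_sub hsub] at h5
    exact h5
  intro d
  induction d with
  | zero =>
    intro G _ _ D B hB hD hd
    obtain ⟨u, b, D', hu, hb, hD', hcard, hind, K, _, _, B₁, D₁, hB₁, hD₁, hc₁, hl⟩ :=
      descend' (d := 2) hpO hB hD hd
    have hk := small_defect hpO 2 le_rfl K D₁ B₁ hB₁ hD₁ hc₁
    obtain ⟨u', b', D'', hu', hb', hD'', hcard', hind', -⟩ := descend' (d := 1) hpO hB₁ hD₁ hc₁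
    obtain ⟨m, hm, hk0, -, -, hC⟩ := local_two hpO hB₁ hD₁ (by rw [hu']; norm_num) hb' hD''
      hcard' hind' hc₁
    have h1 : lB 2 B₁ ≤ 3 := by
      rw [card_B_eq hB₁.irr] at hk
      have h2 : 0 < (B0 O D₁ B₁).card * m := Nat.mul_pos hk0 hm
      omega
    refine step 0 G D B hB hD hd u b D' hu hb hD' hcard hind ?_
    rw [er_three]
    have h2 : (lB 2 b : ℝ) ≤ 3 := by exact_mod_cast hl.trans h1
    norm_num
    linarith
  | succ d ih =>
    intro G _ _ D B hB hD hd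
    obtain ⟨u, b, D', hu, hb, hD', hcard, hind, K, _, _, B₁, D₁, hB₁, hD₁, hc₁, hl⟩ :=
      descend' (d := d + 3) hpO hB hD (by rw [hd])
    have h1 := (ih K D₁ B₁ hB₁ hD₁ hc₁).2
    refine step (d + 1) G D B hB hD hd u b D' hu hb hD' hcard hind ?_
    have h2 : d + 1 + 3 = d + 4 := by ring
    rw [h2]
    exact le_trans (le_trans (by exact_mod_cast hl) h1) (er_step d)

/-- the bound in closed form -/
theorem bound_two' {O : ValuationSubring ℂ} (hpO : ((2 : ℕ) : ℂ) ∈ O.nonunits) (d : ℕ)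
    (G : Type) [Group G] [Fintype G] (D : Subgroup G) (B : Set (G → ℂ)) (hB : IsBlock O B)
    (hD : IsDefectGroup 2 O B D) (hd : Nat.card D = 2 ^ (d + 3)) :
    (Nat.card B : ℝ) ≤ 4 / 25 * 4 ^ (d + 3) + 12 * (8 / 7) ^ (d + 3) - 14 := by
  have h1 := (bound_two hpO d G D B hB hD hd).1
  obtain ⟨h2, h3⟩ := er_bounds d
  have h4 : (4 : ℝ) ^ (d + 3) * er (d + 3) = 48363 / 2560 * (8 / 7) ^ (d + 3) - 25 := by
    unfold er
    have h5 : (8 / 7 : ℝ) ^ (d + 3) = 4 ^ (d + 3) * (2 / 7) ^ (d + 3) := by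
      rw [← mul_pow]
      norm_num
    have h6 : (4 : ℝ) ^ (d + 3) ≠ 0 := by positivity
    rw [h5]
    field_simp
  have h5 : (0 : ℝ) < (8 / 7) ^ (d + 3) := by positivity
  have h6 : 0 ≤ (4 : ℝ) ^ (d + 3) * er (d + 3) ^ 2 := by positivity
  nlinarith

end Pool.Agent.J6H19.KT
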